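import Mathlib
import Pool.Agent.R174.HomE

/-!
# A homeohedral tiling (satisfying N.1 and N.2) with singular points

The plane is identified with the open disk `Dk` circumscribed about the unit square (Klein model
of the hyperbolic plane).  The group `Γ(2)` acts by projective maps, and the square `Q` (an ideal
quadrilateral) is a fundamental domain.  The tiles in `Q` are the rectangles
`[0,1] × [b_n, b_{n+1}]`, `b_n = 2^n/(1+2^n)`, `n ∈ ℤ`; they accumulate at the two horizontal sides
of `Q`, and these sides are covered by the vertical sides of the neighbouring copies of `Q`.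
An additional homeomorphism shifts the tiles in `Q` by one and preserves every other tile.
-/

open Set Metric Topology

namespace Pool.Agent.Results.MP_99f693_co.SingularHomeohedral

/-- A tiling of the plane: a countable family of closed sets whose union is the plane and whose
interiors are pairwise disjoint. -/
structure IsTiling (T : Set (Set ℂ)) : Prop where
  countable : T.Countable
  closed : ∀ X ∈ T, IsClosed X
  cover : ⋃₀ T = Set.univ
  disjoint : ∀ X ∈ T, ∀ Y ∈ T, X ≠ Y → Disjoint (interior X) (interior Y)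

/-- (N.1) every tile is a closed topological disk. -/
def N1 (T : Set (Set ℂ)) : Prop := ∀ X ∈ T, Nonempty (X ≃ₜ closedBall (0:ℂ) 1)

/-- (N.2) any two tiles are disjoint or meet in a connected set. -/
def N2 (T : Set (Set ℂ)) : Prop := ∀ X ∈ T, ∀ Y ∈ T, X ∩ Y = ∅ ∨ IsConnected (X ∩ Y)

/-- The homeomorphisms of the plane mapping the tiling onto itself act transitively on the
tiles. -/
def IsHomeohedral (T : Set (Set ℂ)) : Prop :=
  ∀ X ∈ T, ∀ Y ∈ T, ∃ σ : ℂ ≃ₜ ℂ, (fun Z : Set ℂ => σ '' Z) '' T = T ∧ σ '' X = Y

/-- `x` is a singular point: every open disk centred at `x` meets infinitely many tiles. -/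
def IsSingularPoint (T : Set (Set ℂ)) (x : ℂ) : Prop :=
  ∀ r > 0, {X | X ∈ T ∧ (X ∩ ball x r).Nonempty}.Infinite

/-- **Q1 is false**: there is a homeohedral tiling of the plane satisfying N.1 and N.2 which has
a singular point. -/
theorem result : ∃ T : Set (Set ℂ), IsTiling T ∧ N1 T ∧ N2 T ∧ IsHomeohedral T ∧
    ∃ x, IsSingularPoint T x := by
  refine ⟨Pool.Agent.R174.Hom.TT, ?_, ?_, ?_, ?_, ?_⟩
  · obtain ⟨h1, h2, h3, h4⟩ := Pool.Agent.R174.Hom.TT_tiling
    exact ⟨h1, h2, h3, h4⟩
  · rintro X ⟨g, n, hg, rfl⟩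
    exact Pool.Agent.R174.Hom.tile_disk hg n
  · rintro X ⟨g, n, hg, rfl⟩ Y ⟨h, m, hh, rfl⟩
    rcases Set.eq_empty_or_nonempty
      (Pool.Agent.R174.Hom.tile g n ∩ Pool.Agent.R174.Hom.tile h m) with he | hne
    · exact Or.inl he
    · exact Or.inr ⟨hne, Pool.Agent.R174.Hom.tile_conn hg hh n m⟩
  · intro X hX Y hY
    exact Pool.Agent.R174.Hom.homeohedral hX hY
  · exact Pool.Agent.R174.Hom.singular

end Pool.Agent.Results.MP_99f693_co.SingularHomeohedral
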